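import Mathlib
import Pool.Agent.Run7.h866.NU.Near
import Pool.Agent.Run7.h866.NU.InfNearJoint

set_option autoImplicit false

/-!
# Near-uniform proper points with simple infinitely near points in their first neighbourhoods

The configuration consists of `n ≥ 200` proper points `P i` of multiplicities `w i ∈ {m, m + 1}`,
`m ≥ 1` arbitrary, and of `K` simple infinitely near points `q s`, where `q s` lies on the
exceptional curve of a point `P (c s)` of multiplicity `m`; up to `m + 1` of them may lie on the same
exceptional curve (the configuration is consistent when there are at most `m`). For a general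
configuration of this kind the curves of degree `d` through it form a system of the expected
dimension, in EVERY degree `d`; the open set does not depend on `d`.
-/

namespace Pool.Agent.Results.MP_ad39f2_ag.NearUniformInfinitelyNear

open MvPolynomial

/-- `H⁰(d H - ∑ w i E i)`: the forms of degree `d` vanishing to order at least `w i` at the points
`(P i 0 : P i 1 : 1)`. -/
noncomputable def sections {k : Type} [Field k] {n : ℕ} (P : Fin n → Fin 2 → k) (d : ℕ)
    (w : Fin n → ℕ) : Submodule k (MvPolynomial (Fin 3) k) :=
  homogeneousSubmodule (Fin 3) k d ⊓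
    Submodule.restrictScalars k
      (⨅ i : Fin n, (Ideal.span {X 0 - C (P i 0) * X 2, X 1 - C (P i 1) * X 2} :
        Ideal (MvPolynomial (Fin 3) k)) ^ (w i))

/-- The local equation `F (a + x, b + y, 1)` of `F` at the point `p = (a : b : 1)`. -/
noncomputable def localEquation {k : Type} [Field k] (p : Fin 2 → k) :
    MvPolynomial (Fin 3) k →ₐ[k] MvPolynomial (Fin 2) k :=
  aeval ![X 0 + C (p 0), X 1 + C (p 1), 1]

/-- The value at the direction `(1 : τ)` of the term of degree `a` of the local equation at `p`. For
a curve `F` with a point of multiplicity at least `a` at `p` this is the value at the point `(0, τ)`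
of its virtual transform `F (a + x, b + x y, 1) / x ^ a`; so it is zero exactly when the curve passes
(with virtual multiplicity one) through the point with direction `(1 : τ)` on the exceptional curve
of `p`. -/
noncomputable def valueAt {k : Type} [Field k] (p : Fin 2 → k) (a : ℕ) (τ : k) :
    MvPolynomial (Fin 3) k →ₗ[k] k :=
  (aeval ![1, τ] : MvPolynomial (Fin 2) k →ₐ[k] k).toLinearMap ∘ₗ (homogeneousComponent a) ∘ₗ
    (localEquation p).toLinearMap

/-- `H⁰(P², H(d))`: the curves of degree `d` through the points `P i` with multiplicities `w i` and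
through the simple points `q s` with direction `(1 : t s)` on the exceptional curves of the points
`P (c s)`. -/
noncomputable def curves {k : Type} [Field k] {n K : ℕ} (P : Fin n → Fin 2 → k) (w : Fin n → ℕ)
    (c : Fin K → Fin n) (t : Fin K → k) (d : ℕ) : Submodule k (MvPolynomial (Fin 3) k) :=
  sections P d w ⊓ ⨅ s : Fin K, LinearMap.ker (valueAt (P (c s)) (w (c s)) (t s))

/-- Expected dimension for near-uniform proper points and simple points in their first
neighbourhoods, on one nonempty open set of configurations for every degree. -/
theorem result (k : Type) [Field k] [CharZero k] :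
    ∀ n : ℕ, 200 ≤ n → ∀ m : ℕ, 1 ≤ m → ∀ w : Fin n → ℕ, (∀ i, w i = m ∨ w i = m + 1) →
      ∀ (K : ℕ) (c : Fin K → Fin n), (∀ s, w (c s) = m) →
        (∀ i, (Finset.univ.filter fun s => c s = i).card ≤ m + 1) →
        ∃ G : MvPolynomial ((Fin n × Fin 2) ⊕ Fin K) k, G ≠ 0 ∧
          ∀ (P : Fin n → Fin 2 → k) (t : Fin K → k),
            eval (Sum.elim (fun ij : Fin n × Fin 2 => P ij.1 ij.2) t) G ≠ 0 →
            ∀ d : ℕ, Module.finrank k ↥(curves P w c t d) =
              (d + 2).choose 2 - (∑ i, (w i + 1).choose 2 + K) := by
  intro n hn m hm w hw K c hc hcard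
  have : Infinite k := Infinite.of_injective (Nat.cast : ℕ → k) Nat.cast_injective
  obtain ⟨G, hG, h⟩ := Pool.Agent.TH941.MR.common (k := k) (n := n) (m := m)
    (Q := fun _ _ => True) (fun w hw => by
      obtain ⟨F, hF, h⟩ := Pool.Agent.Run7.h866.NU.near_all hn hm hw (L := k)
      exact ⟨F, hF, fun P hP d _ => h P hP d⟩)
  obtain ⟨H, hH, h1⟩ := Pool.Agent.Run7.h866.NU.IN.joint hG
    (fun P hP w hw d => h P hP w hw d trivial) c Finset.univ w hw (fun s _ => hc s) hcard
  refine ⟨H, hH, fun P t hPt d => ?_⟩
  have h2 := h1 P t hPt d
  rw [Finset.card_univ, Fintype.card_fin] at h2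
  rw [← h2]
  have h3 : curves P w c t d = Pool.Agent.Run7.h866.NU.IN.sys P d w c t Finset.univ := by
    ext F
    rw [Pool.Agent.Run7.h866.NU.IN.mem_sys]
    unfold curves
    rw [Submodule.mem_inf, Submodule.mem_iInf]
    refine and_congr Iff.rfl (forall_congr' fun s => ?_)
    exact ⟨fun h _ => h, fun h => h (Finset.mem_univ _)⟩
  rw [h3]

end Pool.Agent.Results.MP_ad39f2_ag.NearUniformInfinitelyNear
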